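import Pool.Agent.MP_187b32_an.Dich.Vol

/-!
Exponential dichotomy in a Hilbert space for an operator that is a contraction up to finitely
many directions.
-/

namespace Pool.Agent.Boltz.Dich

open Module Filter Topology
open scoped RealInnerProductSpace

/-- Forced orbit `x (j+1) = T (x j) + f j`. -/
def orb {X : Type*} [AddCommGroup X] [Module ℝ X] (T : X →ₗ[ℝ] X) (x : X) (f : ℕ → X) : ℕ → X
  | 0 => x
  | j + 1 => T (orb T x f j) + f j

section
variable {X : Type*} [AddCommGroup X] [Module ℝ X] (T : X →ₗ[ℝ] X)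

@[simp] theorem orb_zero (x : X) (f : ℕ → X) : orb T x f 0 = x := rfl
theorem orb_succ (x : X) (f : ℕ → X) (j : ℕ) : orb T x f (j + 1) = T (orb T x f j) + f j := rfl

theorem orb_add (x y : X) (f g : ℕ → X) (j : ℕ) :
    orb T (x + y) (f + g) j = orb T x f j + orb T y g j := by
  induction j with
  | zero => rfl
  | succ j ih => simp only [orb_succ, ih, map_add, Pi.add_apply]; abel

theorem orb_smul (c : ℝ) (x : X) (f : ℕ → X) (j : ℕ) :
    orb T (c • x) (c • f) j = c • orb T x f j := by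
  induction j with
  | zero => rfl
  | succ j ih => simp only [orb_succ, ih, map_smul, Pi.smul_apply, smul_add]

theorem orb_free (x : X) (j : ℕ) : orb T x 0 j = (T ^ j) x := by
  induction j with
  | zero => rfl
  | succ j ih => simp [orb_succ, ih, pow_succ']

theorem eq_orb (x f : ℕ → X) (h : ∀ j, x (j + 1) = T (x j) + f j) (j : ℕ) :
    x j = orb T (x 0) f j := by
  induction j with
  | zero => rfl
  | succ j ih => rw [h, ih, orb_succ]

end

/-- A recursion driven by a power-bounded operator. -/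
theorem stable_rec {X : Type*} [SeminormedAddCommGroup X] [NormedSpace ℝ X] (T : X →ₗ[ℝ] X)
    (C a b M : ℝ) (hC : 0 ≤ C) (ha : 0 ≤ a) (hab : a < b)
    (hT : ∀ n x, ‖(T ^ n) x‖ ≤ C * a ^ n * ‖x‖) (z h : ℕ → X)
    (hz : ∀ j, z (j + 1) = T (z j) + h j) (h0 : ‖z 0‖ ≤ M) (hh : ∀ j, ‖h j‖ ≤ M * b ^ j) (j : ℕ) :
    ‖z j‖ ≤ C * (1 + 1 / (b - a)) * M * b ^ j := by
  have hM : 0 ≤ M := (norm_nonneg _).trans h0
  have hba : 0 < b - a := by linarith
  have hb : 0 ≤ b := by linarith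
  have key : ∀ j n, ‖(T ^ n) (z j)‖ ≤ a ^ n * (C * M * a ^ j + C * M * b ^ j / (b - a)) := by
    intro j
    induction j with
    | zero =>
      intro n
      have h1 := hT n (z 0)
      have h2 : C * a ^ n * ‖z 0‖ ≤ C * a ^ n * M := by gcongr
      have h3 : 0 ≤ a ^ n * (C * M * b ^ 0 / (b - a)) := by positivity
      simp only [pow_zero, mul_one] at *
      nlinarith
    | succ j ih =>
      intro n
      have e : (T ^ n) (z (j + 1)) = (T ^ (n + 1)) (z j) + (T ^ n) (h j) := by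
        rw [hz, map_add, pow_succ]; rfl
      have h1 := ih (n + 1)
      have h2 := hT n (h j)
      have h3 : C * a ^ n * ‖h j‖ ≤ C * a ^ n * (M * b ^ j) := by gcongr; exact hh j
      have h4 := norm_add_le ((T ^ (n + 1)) (z j)) ((T ^ n) (h j))
      have h5 : a ^ (n + 1) * (C * M * a ^ j + C * M * b ^ j / (b - a)) + C * a ^ n * (M * b ^ j)
          = a ^ n * (C * M * a ^ (j + 1) + C * M * b ^ (j + 1) / (b - a)) := by
        field_simp; ring
      rw [e]; linarith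
  have h1 := key j 0
  simp only [pow_zero, one_mul, Module.End.one_apply] at h1
  have h2 : C * M * a ^ j ≤ C * M * b ^ j := by gcongr
  have h3 : C * (1 + 1 / (b - a)) * M * b ^ j = C * M * b ^ j + C * M * b ^ j / (b - a) := by
    field_simp
  linarith

variable {H : Type*} [NormedAddCommGroup H] [InnerProductSpace ℝ H]

theorem long_orbits (T : H →ₗ[ℝ] H) (q L : ℝ) (hq : 0 < q) (hL : ∀ x, ‖T x‖ ≤ L * ‖x‖)
    (hL0 : 0 ≤ L) (hun : ¬∃ M : ℝ, ∀ n x, ‖(T ^ n) x‖ ≤ M * q ^ n * ‖x‖) (n : ℕ) :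
    ∃ Y : ℕ → H, ‖Y 0‖ = 1 ∧ (∀ j ≤ n, ‖Y j‖ ≤ q⁻¹ ^ j) ∧ ∀ j < n, T (Y (j + 1)) = Y j := by
  have hpow : ∀ j x, ‖(T ^ j) x‖ ≤ L ^ j * ‖x‖ := by
    intro j
    induction j with
    | zero => intro x; simp
    | succ j ih =>
      intro x
      rw [pow_succ', Module.End.mul_apply]
      refine (hL _).trans ?_
      rw [pow_succ', mul_assoc]
      exact mul_le_mul_of_nonneg_left (ih x) hL0
  set M := ∑ j ∈ Finset.range n, (q⁻¹ * L) ^ j with hM
  have hM0 : 0 ≤ M := Finset.sum_nonneg fun j _ => by positivity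
  push Not at hun
  obtain ⟨N0, x, hx⟩ := hun M
  set g : ℕ → ℝ := fun j => q⁻¹ ^ j * ‖(T ^ j) x‖ with hg
  obtain ⟨N, hN, hmax⟩ := Finset.exists_max_image (Finset.range (N0 + 1)) g ⟨0, by simp⟩
  have hN0 : M * ‖x‖ < g N0 := by
    have h1 : q⁻¹ ^ N0 * (M * q ^ N0 * ‖x‖) < q⁻¹ ^ N0 * ‖(T ^ N0) x‖ :=
      mul_lt_mul_of_pos_left hx (by positivity)
    have h2 : q⁻¹ ^ N0 * q ^ N0 = 1 := by rw [← mul_pow, inv_mul_cancel₀ hq.ne', one_pow]
    have h3 : q⁻¹ ^ N0 * (M * q ^ N0 * ‖x‖) = M * ‖x‖ := by linear_combination M * ‖x‖ * h2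
    rwa [h3] at h1
  have hgN : M * ‖x‖ < g N := hN0.trans_le (hmax N0 (by simp))
  have hnN : n ≤ N := by
    by_contra hlt
    push Not at hlt
    have h1 : (q⁻¹ * L) ^ N ≤ M :=
      Finset.single_le_sum (f := fun j => (q⁻¹ * L) ^ j) (fun j _ => by positivity)
        (Finset.mem_range.mpr hlt)
    have h2 : g N ≤ (q⁻¹ * L) ^ N * ‖x‖ := by
      rw [mul_pow, mul_assoc]
      exact mul_le_mul_of_nonneg_left (hpow N x) (by positivity)
    have h3 : (q⁻¹ * L) ^ N * ‖x‖ ≤ M * ‖x‖ := by gcongr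
    linarith
  have hpos : 0 < ‖(T ^ N) x‖ := by
    have : 0 < g N := lt_of_le_of_lt (by positivity) hgN
    exact pos_of_mul_pos_right this (by positivity)
  refine ⟨fun j => ‖(T ^ N) x‖⁻¹ • (T ^ (N - j)) x, ?_, fun j hj => ?_, fun j hj => ?_⟩
  · simp [norm_smul, hpos.ne']
  · have hjN : j ≤ N := hj.trans hnN
    have h1 := hmax (N - j) (by simp at hN ⊢; omega)
    simp only [hg] at h1
    have h2 : q⁻¹ ^ N = q⁻¹ ^ (N - j) * q⁻¹ ^ j := by rw [← pow_add]; congr 1; omega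
    rw [h2, mul_assoc] at h1
    have h3 := le_of_mul_le_mul_left h1 (by positivity)
    rw [norm_smul, norm_inv, norm_norm, inv_mul_le_iff₀ hpos, mul_comm]
    exact h3
  · have : N - j = (N - (j + 1)) + 1 := by omega
    simp only [map_smul]
    rw [this, pow_succ', Module.End.mul_apply]

/-- If the powers are not `O(q ^ n)`, there is a nonzero decaying backward orbit. -/
theorem extract [CompleteSpace H] {κ : Type*} [Fintype κ] (T : H →L[ℝ] H) (r : κ → H) (q0 q : ℝ)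
    (hq0 : 0 ≤ q0) (hq : q0 < q)
    (hT : ∀ x, ‖T x‖ ^ 2 ≤ q0 ^ 2 * ‖x‖ ^ 2 + ∑ k, ⟪r k, x⟫ ^ 2)
    (hun : ¬∃ M : ℝ, ∀ n x, ‖((T : H →ₗ[ℝ] H) ^ n) x‖ ≤ M * q ^ n * ‖x‖) :
    ∃ y : ℕ → H, ‖y 0‖ = 1 ∧ (∀ j, ‖y j‖ ≤ q⁻¹ ^ j) ∧ ∀ j, T (y (j + 1)) = y j := by
  have hqpos : 0 < q := lt_of_le_of_lt hq0 hq
  choose Y hY0 hYb hYr using
    long_orbits (T : H →ₗ[ℝ] H) q ‖T‖ hqpos T.le_opNorm (norm_nonneg _) hun
  set 𝒰 := hyperfilter ℕ with h𝒰
  have hev : ∀ j : ℕ, ∀ᶠ n in (𝒰 : Filter ℕ), j ≤ n := fun j =>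
    (Nat.hyperfilter_le_atTop) (eventually_ge_atTop j)
  have hscal : ∀ j k, ∃ c : ℝ, Tendsto (fun n => ⟪r k, Y n j⟫) 𝒰 (𝓝 c) := by
    intro j k
    have hb : ∀ᶠ n in (𝒰 : Filter ℕ),
        ⟪r k, Y n j⟫ ∈ Metric.closedBall (0 : ℝ) (‖r k‖ * q⁻¹ ^ j) := by
      filter_upwards [hev j] with n hn
      rw [mem_closedBall_zero_iff, Real.norm_eq_abs]
      exact (abs_real_inner_le_norm _ _).trans (by gcongr; exact hYb n j hn)
    obtain ⟨c, -, hc⟩ := (isCompact_closedBall (0 : ℝ) (‖r k‖ * q⁻¹ ^ j)).ultrafilter_le_nhds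
      (𝒰.map fun n => ⟪r k, Y n j⟫) (by
        rw [le_principal_iff]; exact hb)
    exact ⟨c, hc⟩
  set F := (𝒰 : Filter ℕ) ×ˢ (𝒰 : Filter ℕ) with hF
  have he : ∀ j, Tendsto (fun p : ℕ × ℕ => ∑ k, ⟪r k, Y p.1 j - Y p.2 j⟫ ^ 2) F (𝓝 0) := by
    intro j
    have : Tendsto (fun p : ℕ × ℕ => ∑ k, ⟪r k, Y p.1 j - Y p.2 j⟫ ^ 2) F
        (𝓝 (∑ _k : κ, (0 : ℝ))) := by
      refine tendsto_finsetSum _ fun k _ => ?_
      obtain ⟨c, hc⟩ := hscal j k
      have h1 := ((hc.comp (tendsto_fst (g := (𝒰 : Filter ℕ)))).sub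
        (hc.comp (tendsto_snd (f := (𝒰 : Filter ℕ))))).pow 2
      simpa [inner_sub_right] using h1
    simpa using this
  have hevF : ∀ j : ℕ, ∀ᶠ p in F, j ≤ p.1 ∧ j ≤ p.2 := fun j =>
    ((hev j).prod_inl _).and ((hev j).prod_inr _)
  have hind : ∀ J j : ℕ, ∀ ε > 0, ∀ᶠ p in F,
      ‖Y p.1 j - Y p.2 j‖ ^ 2 ≤ (q0 ^ 2) ^ J * (2 * q⁻¹ ^ (j + J)) ^ 2 + ε := by
    intro J
    induction J with
    | zero =>
      intro j ε hε
      filter_upwards [hevF j] with p hp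
      have h1 := norm_sub_le (Y p.1 j) (Y p.2 j)
      have h2 := hYb p.1 j hp.1
      have h3 := hYb p.2 j hp.2
      have h4 : ‖Y p.1 j - Y p.2 j‖ ^ 2 ≤ (2 * q⁻¹ ^ j) ^ 2 := by
        gcongr; linarith
      simp only [pow_zero, one_mul, add_zero]
      linarith
    | succ J ih =>
      intro j ε hε
      have hε' : 0 < ε / (2 * (q0 ^ 2 + 1)) := by positivity
      filter_upwards [hevF (j + 1), ih (j + 1) _ hε',
        (he (j + 1)).eventually (ge_mem_nhds (half_pos hε))] with p hp h1 h2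
      have h3 := hT (Y p.1 (j + 1) - Y p.2 (j + 1))
      have e1 : T (Y p.1 (j + 1)) = Y p.1 j := hYr p.1 j hp.1
      have e2 : T (Y p.2 (j + 1)) = Y p.2 j := hYr p.2 j hp.2
      rw [map_sub, e1, e2] at h3
      have h4 := mul_le_mul_of_nonneg_left h1 (sq_nonneg q0)
      have h5 : q0 ^ 2 * (ε / (2 * (q0 ^ 2 + 1))) ≤ ε / 2 := by
        rw [← mul_div_assoc, div_le_div_iff₀ (by positivity) (by norm_num)]
        nlinarith [sq_nonneg q0]
      have h6 : j + 1 + J = j + (J + 1) := by ring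
      rw [h6] at h4
      have h7 : (q0 ^ 2) ^ (J + 1) = q0 ^ 2 * (q0 ^ 2) ^ J := pow_succ' _ _
      rw [h7]
      nlinarith
  have hcau : ∀ j, ∃ y : H, Tendsto (fun n => Y n j) 𝒰 (𝓝 y) := by
    intro j
    refine CompleteSpace.complete (f := map (fun n => Y n j) 𝒰) ?_
    rw [cauchy_map_iff']
    refine Metric.uniformity_basis_dist.tendsto_right_iff.mpr fun ε hε => ?_
    have hlt : (q0 * q⁻¹) ^ 2 < 1 := by
      have : q0 * q⁻¹ < 1 := by rw [← div_eq_mul_inv, div_lt_one hqpos]; exact hq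
      have h0 : 0 ≤ q0 * q⁻¹ := by positivity
      nlinarith
    have hlim : Tendsto (fun J : ℕ => (2 * q⁻¹ ^ j) ^ 2 * ((q0 * q⁻¹) ^ 2) ^ J) atTop (𝓝 0) := by
      simpa using (tendsto_pow_atTop_nhds_zero_of_lt_one (sq_nonneg _) hlt).const_mul
        ((2 * q⁻¹ ^ j) ^ 2)
    have hε2 : 0 < ε ^ 2 / 3 := by positivity
    obtain ⟨J, hJ⟩ := (hlim.eventually (ge_mem_nhds hε2)).exists
    filter_upwards [hind J j _ hε2] with p hp
    have e : (q0 ^ 2) ^ J * (2 * q⁻¹ ^ (j + J)) ^ 2 = (2 * q⁻¹ ^ j) ^ 2 * ((q0 * q⁻¹) ^ 2) ^ J := by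
      rw [pow_add]; ring
    rw [e] at hp
    show dist (Y p.1 j) (Y p.2 j) < ε
    rw [dist_eq_norm]
    apply lt_of_pow_lt_pow_left₀ 2 hε.le
    nlinarith [sq_pos_of_pos hε]
  choose y hy using hcau
  refine ⟨y, ?_, fun j => ?_, fun j => ?_⟩
  · have h1 := (hy 0).norm
    simp only [hY0] at h1
    exact (tendsto_nhds_unique tendsto_const_nhds h1).symm
  · exact le_of_tendsto (hy j).norm (by filter_upwards [hev j] with n hn using hYb n j hn)
  · have h1 := (T.continuous.tendsto _).comp (hy (j + 1))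
    refine tendsto_nhds_unique h1 ((hy j).congr' ?_)
    filter_upwards [hev (j + 1)] with n hn
    exact (hYr n j hn).symm

/-- Sequences of size `O(q ^ j)`. -/
def Dec (X : Type*) [SeminormedAddCommGroup X] [NormedSpace ℝ X] (q : ℝ) :
    Submodule ℝ (ℕ → X) where
  carrier := {f | ∃ M : ℝ, ∀ j, ‖f j‖ ≤ M * q ^ j}
  add_mem' := by
    rintro f g ⟨C, hC⟩ ⟨D, hD⟩
    refine ⟨C + D, fun j => ?_⟩
    have := norm_add_le (f j) (g j)
    have := hC j
    have := hD j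
    simp only [Pi.add_apply]
    linarith
  zero_mem' := ⟨0, by simp⟩
  smul_mem' := by
    rintro c f ⟨C, hC⟩
    refine ⟨|c| * C, fun j => ?_⟩
    simp only [Pi.smul_apply, norm_smul, Real.norm_eq_abs, mul_assoc]
    exact mul_le_mul_of_nonneg_left (hC j) (abs_nonneg c)

/-- Solving backward along an expanding direction. -/
theorem unstable_rec {X : Type*} [NormedAddCommGroup X] [NormedSpace ℝ X] [CompleteSpace X]
    (T : X →L[ℝ] X) (R : X →ₗ[ℝ] X) (hTR : ∀ x, T (R x) = x) (C b q M : ℝ) (hC : 0 ≤ C)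
    (hb : 0 ≤ b) (hq : 0 ≤ q) (hbq : b * q < 1) (hR : ∀ n x, ‖(R ^ n) x‖ ≤ C * b ^ n * ‖x‖)
    (g : ℕ → X) (hg : ∀ j, ‖g j‖ ≤ M * q ^ j) :
    ∃ z : ℕ → X, (∀ j, z (j + 1) = T (z j) + g j) ∧
      ∀ j, ‖z j‖ ≤ C * b * (1 - b * q)⁻¹ * M * q ^ j := by
  have hbound : ∀ j i, ‖(R ^ (i + 1)) (g (j + i))‖ ≤ C * b * M * q ^ j * (b * q) ^ i := by
    intro j i
    refine (hR _ _).trans ((mul_le_mul_of_nonneg_left (hg _) (by positivity)).trans (le_of_eq ?_))
    rw [pow_add, pow_add, mul_pow]; ring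
  have hgeo : ∀ j, HasSum (fun i => C * b * M * q ^ j * (b * q) ^ i)
      (C * b * M * q ^ j * (1 - b * q)⁻¹) := fun j =>
    (hasSum_geometric_of_lt_one (by positivity) hbq).mul_left _
  have hsum : ∀ j, Summable fun i => (R ^ (i + 1)) (g (j + i)) := fun j =>
    Summable.of_norm_bounded (hgeo j).summable (hbound j)
  refine ⟨fun j => -∑' i, (R ^ (i + 1)) (g (j + i)), fun j => ?_, fun j => ?_⟩
  · have h1 : T (∑' i, (R ^ (i + 1)) (g (j + i))) = ∑' i, (R ^ i) (g (j + i)) := by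
      rw [T.map_tsum (hsum j)]
      congr 1
      ext i
      rw [pow_succ', Module.End.mul_apply, hTR]
    have h2 : Summable fun i => (R ^ i) (g (j + i)) := by
      rw [← summable_nat_add_iff 1]
      refine (hsum (j + 1)).congr fun i => ?_
      congr 2; ring
    have h3 : ∑' i, (R ^ i) (g (j + i)) = g j + ∑' i, (R ^ (i + 1)) (g (j + 1 + i)) := by
      rw [h2.tsum_eq_zero_add]
      congr 1
      congr 1
      ext i
      congr 2; ring
    simp only [map_neg, h1, h3]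
    abel
  · rw [norm_neg]
    refine (tsum_of_norm_bounded (hgeo j) (hbound j)).trans (le_of_eq ?_)
    ring

/-- Dichotomy in a Hilbert space. -/
theorem hilbert_dich [CompleteSpace H] {κ : Type*} [Fintype κ] (S : H →L[ℝ] H) (r : κ → H)
    (q0 q1 : ℝ) (hq0 : 0 ≤ q0) (hq : q0 < q1)
    (hS : ∀ x, ‖S x‖ ^ 2 ≤ q0 ^ 2 * ‖x‖ ^ 2 + ∑ k, ⟪r k, x⟫ ^ 2) :
    ∃ q2, q1 < q2 ∧ ∃ U : Submodule ℝ H, FiniteDimensional ℝ U ∧ ∀ q, q1 < q → q < q2 →
      (∀ u ∈ U, (fun j => ((S : H →ₗ[ℝ] H) ^ j) u) ∈ Dec H q → u = 0) ∧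
      ∃ C : ℝ, 0 ≤ C ∧ ∀ (x : H) (f : ℕ → H) (M : ℝ), ‖x‖ ≤ M → (∀ j, ‖f j‖ ≤ M * q ^ j) →
        ∃ u ∈ U, ∀ j, ‖orb (S : H →ₗ[ℝ] H) (x + u) f j‖ ≤ C * M * q ^ j := by
  set Sl := (S : H →ₗ[ℝ] H) with hSl
  have hq1 : 0 < q1 := lt_of_le_of_lt hq0 hq
  have hfin1 : FiniteDimensional ℝ (Back Sl q1⁻¹) := Back_finite Sl r q0 q1 hq0 hq hS
  have hle : ∀ {a b : ℝ}, 0 < a → a ≤ b → Back Sl b⁻¹ ≤ Back Sl a⁻¹ := fun {a b} ha hab =>
    Back_mono Sl (inv_nonneg.mpr (ha.le.trans hab)) (inv_anti₀ ha hab)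
  -- choose `q2` of maximal dimension
  obtain ⟨q2, hq2, hmax⟩ : ∃ q2, q1 < q2 ∧ ∀ q, q1 < q →
      finrank ℝ (Back Sl q⁻¹) ≤ finrank ℝ (Back Sl q2⁻¹) := by
    have hbdd : BddAbove ((fun q => finrank ℝ (Back Sl q⁻¹)) '' Set.Ioi q1) := by
      refine ⟨finrank ℝ (Back Sl q1⁻¹), ?_⟩
      rintro _ ⟨q, hq', rfl⟩
      exact Submodule.finrank_mono (hle hq1 (le_of_lt hq'))
    have hne : ((fun q => finrank ℝ (Back Sl q⁻¹)) '' Set.Ioi q1).Nonempty :=
      ⟨_, q1 + 1, by simp, rfl⟩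
    obtain ⟨q2, h2, h3⟩ := Nat.sSup_mem hne hbdd
    exact ⟨q2, h2, fun q hq' => (le_csSup hbdd ⟨q, hq', rfl⟩).trans h3.ge⟩
  have hq2pos : 0 < q2 := hq1.trans hq2
  set U := Back Sl q2⁻¹ with hU
  have hfinU : FiniteDimensional ℝ U := Submodule.finiteDimensional_of_le (hle hq1 hq2.le)
  have heq : ∀ a, q1 < a → a ≤ q2 → Back Sl a⁻¹ = U := by
    intro a ha ha2
    have : FiniteDimensional ℝ (Back Sl a⁻¹) := Submodule.finiteDimensional_of_le (hle hq1 ha.le)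
    exact (Submodule.eq_of_le_of_finrank_le (hle (hq1.trans ha) ha2) (hmax a ha)).symm
  -- invariance
  have hinv : ∀ u ∈ U, Sl u ∈ U := by
    rintro _ ⟨u, rfl, hu, C, hC⟩
    refine ⟨fun j => Nat.casesOn j (Sl (u 0)) u, rfl, fun j => ?_,
      max (‖Sl (u 0)‖) (C * q2), fun j => ?_⟩
    · cases j with
      | zero => rfl
      | succ j => exact hu j
    · cases j with
      | zero => simp
      | succ j =>
        show ‖u j‖ ≤ _
        refine (hC j).trans ?_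
        have : C * q2⁻¹ ^ j = C * q2 * q2⁻¹ ^ (j + 1) := by
          rw [pow_succ]; field_simp
        rw [this]
        exact mul_le_mul_of_nonneg_right (le_max_right _ _) (by positivity)
  have hshift : ∀ (u : ℕ → H) (C : ℝ), (∀ j, Sl (u (j + 1)) = u j) →
      (∀ j, ‖u j‖ ≤ C * q2⁻¹ ^ j) → ∀ i, u i ∈ U := by
    intro u C hu hC i
    refine ⟨fun j => u (i + j), rfl, fun j => hu (i + j), C * q2⁻¹ ^ i, fun j => ?_⟩
    rw [mul_assoc, ← pow_add]
    exact hC _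
  let SU : U →ₗ[ℝ] U := Sl.restrict hinv
  have hsurj : Function.Surjective SU := by
    rintro ⟨_, u, rfl, hu, C, hC⟩
    exact ⟨⟨u 1, hshift u C hu hC 1⟩, Subtype.ext (hu 0)⟩
  have hinj : Function.Injective SU := LinearMap.injective_iff_surjective.mpr hsurj
  let eU : U ≃ₗ[ℝ] U := LinearEquiv.ofBijective SU ⟨hinj, hsurj⟩
  let R : U →ₗ[ℝ] U := eU.symm
  have hSR : ∀ z, SU (R z) = z := fun z => eU.apply_symm_apply z
  have hRS : ∀ z, R (SU z) = z := fun z => eU.symm_apply_apply z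
  have hRpt : ∀ z : U, ∃ C : ℝ, ∀ n, ‖(R ^ n) z‖ ≤ C * q2⁻¹ ^ n := by
    rintro ⟨_, u, rfl, hu, C, hC⟩
    refine ⟨C, fun n => ?_⟩
    have : ∀ n, ∀ h0, (R ^ n) ⟨u 0, h0⟩ = ⟨u n, hshift u C hu hC n⟩ := by
      intro n h0
      induction n with
      | zero => rfl
      | succ n ih =>
        rw [pow_succ', Module.End.mul_apply, ih]
        apply hinj
        rw [hSR]
        exact Subtype.ext (hu n).symm
    rw [this]
    exact hC n
  have hcomplU : CompleteSpace U := FiniteDimensional.complete ℝ U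
  obtain ⟨CR, hCR0, hCR⟩ : ∃ C : ℝ, 0 ≤ C ∧ ∀ n z, ‖(R ^ n) z‖ ≤ C * q2⁻¹ ^ n * ‖z‖ := by
    obtain ⟨C, hC⟩ := banach_steinhaus (𝕜 := ℝ) (𝕜₂ := ℝ) (σ₁₂ := RingHom.id ℝ)
      (g := fun n : ℕ => LinearMap.toContinuousLinearMap (q2 ^ n • R ^ n)) (fun z => by
        obtain ⟨C, hC⟩ := hRpt z
        refine ⟨C, fun n => ?_⟩
        have h1 : q2 ^ n * q2⁻¹ ^ n = 1 := by rw [← mul_pow, mul_inv_cancel₀ hq2pos.ne', one_pow]
        have h2 := mul_le_mul_of_nonneg_left (hC n) (pow_nonneg hq2pos.le n)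
        simp only [LinearMap.coe_toContinuousLinearMap', LinearMap.smul_apply, norm_smul,
          Real.norm_eq_abs, abs_of_pos (pow_pos hq2pos n)]
        calc q2 ^ n * ‖(R ^ n) z‖ ≤ q2 ^ n * (C * q2⁻¹ ^ n) := h2
          _ = C := by linear_combination C * h1)
    refine ⟨C, (norm_nonneg _).trans (hC 0), fun n z => ?_⟩
    have h1 : q2⁻¹ ^ n * q2 ^ n = 1 := by rw [← mul_pow, inv_mul_cancel₀ hq2pos.ne', one_pow]
    have h2 := (LinearMap.toContinuousLinearMap (q2 ^ n • R ^ n)).le_of_opNorm_le (hC n) z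
    simp only [LinearMap.coe_toContinuousLinearMap', LinearMap.smul_apply, norm_smul,
      Real.norm_eq_abs, abs_of_pos (pow_pos hq2pos n)] at h2
    have h3 := mul_le_mul_of_nonneg_left h2 (pow_nonneg (inv_nonneg.mpr hq2pos.le) n)
    calc ‖(R ^ n) z‖ = q2⁻¹ ^ n * (q2 ^ n * ‖(R ^ n) z‖) := by
          linear_combination (-‖(R ^ n) z‖) * h1
      _ ≤ _ := h3
      _ = _ := by ring
  -- the projected operator
  let Q : H →L[ℝ] U := U.orthogonalProjectionOnto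
  let P : H →L[ℝ] H := Uᗮ.starProjection
  have hPQ : ∀ x, P x + (Q x : H) = x := fun x => by
    have := U.starProjection_add_starProjection_orthogonal x
    rw [add_comm]
    exact this
  have hPle : ∀ x, ‖P x‖ ≤ ‖x‖ := fun x => Uᗮ.norm_starProjection_apply_le x
  have hQle : ∀ x, ‖Q x‖ ≤ ‖x‖ := fun x => U.norm_orthogonalProjectionOnto_apply_le x
  have hPmem : ∀ x, P x ∈ Uᗮ := fun x => Uᗮ.starProjection_apply_mem x
  let T : H →L[ℝ] H := P.comp S
  have hT : ∀ x, ‖T x‖ ^ 2 ≤ q0 ^ 2 * ‖x‖ ^ 2 + ∑ k, ⟪r k, x⟫ ^ 2 := fun x =>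
    (pow_le_pow_left₀ (norm_nonneg _) (hPle (S x)) 2).trans (hS x)
  have hTbound : ∀ a, q1 < a → a < q2 →
      ∃ M : ℝ, ∀ n x, ‖((T : H →ₗ[ℝ] H) ^ n) x‖ ≤ M * a ^ n * ‖x‖ := by
    intro a ha ha2
    have hapos : 0 < a := hq1.trans ha
    by_contra hun
    obtain ⟨y, hy0, hyb, hyr⟩ := extract T r q0 a hq0 (hq.trans ha) hT hun
    let g : ℕ → U := fun j => Q (S (y (j + 1)))
    have hg : ∀ j, S (y (j + 1)) = y j + g j := fun j => by
      rw [← hyr j]; exact (hPQ _).symm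
    let h : ℕ → U := fun j => -R (g j)
    have hh : ∀ j, ‖h j‖ ≤ (CR * q2⁻¹ * (‖S‖ * a⁻¹)) * a⁻¹ ^ j := by
      intro j
      have h1 := hCR 1 (g j)
      rw [pow_one, pow_one] at h1
      have h2 : ‖g j‖ ≤ ‖S‖ * a⁻¹ ^ (j + 1) :=
        (hQle _).trans ((S.le_opNorm _).trans (by gcongr; exact hyb _))
      have h3 : ‖h j‖ = ‖R (g j)‖ := norm_neg _
      rw [h3]
      refine h1.trans ((mul_le_mul_of_nonneg_left h2 (by positivity)).trans (le_of_eq ?_))
      ring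
    have hz := stable_rec R CR q2⁻¹ a⁻¹ _ hCR0 (by positivity) (inv_strictAnti₀ hapos ha2) hCR
      (orb R 0 h) h (orb_succ R 0 h) (by simp; positivity) hh
    have hmem : y 0 ∈ Back Sl a⁻¹ := by
      refine ⟨fun j => y j + (orb R 0 h j : U), by simp, fun j => ?_,
        1 + CR * (1 + 1 / (a⁻¹ - q2⁻¹)) * (CR * q2⁻¹ * (‖S‖ * a⁻¹)), fun j => ?_⟩
      · have h1 : SU (orb R 0 h (j + 1)) = orb R 0 h j - g j := by
          rw [orb_succ, map_add, hSR]
          simp only [h, map_neg, hSR]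
          abel
        have h2 : Sl (orb R 0 h (j + 1) : U) = (orb R 0 h j : U) - (g j : H) :=
          congrArg Subtype.val h1
        have h3 : Sl (y (j + 1)) = y j + g j := hg j
        simp only [map_add, h2, h3]
        abel
      · have h1 := norm_add_le (y j) (orb R 0 h j : U)
        have h2 := hyb j
        have h3 : ‖((orb R 0 h j : U) : H)‖ ≤ _ := hz j
        simp only
        linarith
    rw [heq a ha ha2.le] at hmem
    have hperp : y 0 ∈ Uᗮ := by rw [← hyr 0]; exact hPmem _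
    have : y 0 = 0 := by
      have := (Submodule.mem_orthogonal U (y 0)).mp hperp (y 0) hmem
      exact inner_self_eq_zero.mp this
    rw [this, norm_zero] at hy0
    exact zero_ne_one hy0
  refine ⟨q2, hq2, U, hfinU, fun q hq1q hqq2 => ⟨?_, ?_⟩⟩
  · rintro u hu ⟨M, hM⟩
    have hqpos : 0 < q := hq1.trans hq1q
    have h1 : ∀ n, (R ^ n) ((SU ^ n) ⟨u, hu⟩) = ⟨u, hu⟩ := by
      intro n
      induction n with
      | zero => rfl
      | succ n ih => rw [pow_succ, pow_succ', Module.End.mul_apply, Module.End.mul_apply, hRS, ih]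
    have h2 : ∀ n, (((SU ^ n) ⟨u, hu⟩ : U) : H) = (Sl ^ n) u := by
      intro n
      induction n with
      | zero => rfl
      | succ n ih =>
        rw [pow_succ', pow_succ', Module.End.mul_apply, Module.End.mul_apply, ← ih]; rfl
    have h3 : ∀ n, ‖u‖ ≤ CR * M * (q2⁻¹ * q) ^ n := by
      intro n
      have h4 := hCR n ((SU ^ n) ⟨u, hu⟩)
      rw [h1] at h4
      have h5 : ‖(SU ^ n) ⟨u, hu⟩‖ ≤ M * q ^ n := by
        have := hM n
        simp only at this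
        rw [← h2] at this
        exact this
      calc ‖u‖ ≤ CR * q2⁻¹ ^ n * ‖(SU ^ n) ⟨u, hu⟩‖ := h4
        _ ≤ CR * q2⁻¹ ^ n * (M * q ^ n) := by gcongr
        _ = _ := by rw [mul_pow]; ring
    have hlt : q2⁻¹ * q < 1 := by rw [inv_mul_lt_iff₀ hq2pos, mul_one]; exact hqq2
    have hlim : Tendsto (fun n : ℕ => CR * M * (q2⁻¹ * q) ^ n) atTop (𝓝 0) := by
      simpa using (tendsto_pow_atTop_nhds_zero_of_lt_one (by positivity) hlt).const_mul (CR * M)
    exact norm_le_zero_iff.mp (ge_of_tendsto' hlim h3)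
  · have hqpos : 0 < q := hq1.trans hq1q
    set a := (q1 + q) / 2 with ha
    have ha1 : q1 < a := by rw [ha]; linarith
    have ha2 : a < q := by rw [ha]; linarith
    obtain ⟨M0, hM0⟩ := hTbound a ha1 (ha2.trans hqq2)
    set CT := max M0 0 with hCT
    have hCT0 : 0 ≤ CT := le_max_right _ _
    have hapos : 0 < a := hq1.trans ha1
    have hTb : ∀ n x, ‖((T : H →ₗ[ℝ] H) ^ n) x‖ ≤ CT * a ^ n * ‖x‖ := fun n x =>
      (hM0 n x).trans (by gcongr; exact le_max_left _ _)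
    set C1 := CT * (1 + 1 / (q - a)) with hC1
    have hC10 : 0 ≤ C1 := by
      have : 0 < q - a := by linarith
      positivity
    have hlt : q2⁻¹ * q < 1 := by rw [inv_mul_lt_iff₀ hq2pos, mul_one]; exact hqq2
    have hlt' : 0 < 1 - q2⁻¹ * q := by linarith
    refine ⟨C1 + CR * q2⁻¹ * (1 - q2⁻¹ * q)⁻¹ * (‖S‖ * C1 + 1), by positivity,
      fun x f M hx hf => ?_⟩
    have hM : 0 ≤ M := (norm_nonneg _).trans hx
    let p : ℕ → H := orb (T : H →ₗ[ℝ] H) x fun j => P (f j)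
    have hp : ∀ j, ‖p j‖ ≤ C1 * M * q ^ j :=
      stable_rec (T : H →ₗ[ℝ] H) CT a q M hCT0 hapos.le ha2 hTb p (fun j => P (f j))
        (orb_succ _ _ _) hx fun j => (hPle _).trans (hf j)
    let g : ℕ → U := fun j => Q (S (p j) + f j)
    have hg : ∀ j, ‖g j‖ ≤ ((‖S‖ * C1 + 1) * M) * q ^ j := by
      intro j
      have h1 := hQle (S (p j) + f j)
      have h2 := norm_add_le (S (p j)) (f j)
      have h3 : ‖S (p j)‖ ≤ ‖S‖ * (C1 * M * q ^ j) := (S.le_opNorm _).trans (by gcongr; exact hp j)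
      have h4 := hf j
      have h5 : ‖g j‖ = ‖Q (S (p j) + f j)‖ := rfl
      nlinarith
    obtain ⟨z, hz, hzb⟩ := unstable_rec (LinearMap.toContinuousLinearMap SU) R hSR CR q2⁻¹ q _
      hCR0 (by positivity) hqpos.le hlt hCR g hg
    refine ⟨z 0, (z 0).2, fun j => ?_⟩
    have hx' : ∀ j, p (j + 1) + (z (j + 1) : H) = Sl (p j + (z j : H)) + f j := by
      intro j
      have h1 : p (j + 1) = P (S (p j) + f j) := by rw [map_add]; rfl
      have h2 : (z (j + 1) : H) = Sl (z j : H) + g j := congrArg Subtype.val (hz j)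
      have h3 := hPQ (S (p j) + f j)
      have h4 : Sl (p j) = S (p j) := rfl
      rw [h1, h2, map_add Sl, h4]
      have h5 : (g j : H) = Q (S (p j) + f j) := rfl
      rw [h5]
      calc P (S (p j) + f j) + (Sl (z j : H) + (Q (S (p j) + f j) : H))
          = (P (S (p j) + f j) + (Q (S (p j) + f j) : H)) + Sl (z j : H) := by abel
        _ = _ := by rw [h3]; abel
    have h6 := eq_orb Sl (fun j => p j + (z j : H)) f hx' j
    have h7 : p 0 = x := rfl
    simp only [h7] at h6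
    rw [← h6]
    have h8 := norm_add_le (p j) (z j : H)
    have h9 : ‖(z j : H)‖ ≤ _ := hzb j
    have h10 := hp j
    nlinarith

end Pool.Agent.Boltz.Dich
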