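import Mathlib

/-!
Volume contraction for an operator that is a contraction up to finitely many directions,
and finite dimensionality of the space of decaying backward orbits.
-/

namespace Pool.Agent.Boltz.Dich

open Module Filter Topology
open scoped RealInnerProductSpace

variable {H : Type*} [NormedAddCommGroup H] [InnerProductSpace ℝ H]

/-- Hadamard's inequality for `normDet`. -/
theorem normDet_le_prod {U : Type*} [NormedAddCommGroup U] [InnerProductSpace ℝ U]
    [FiniteDimensional ℝ U] {d : ℕ} (f : U →ₗ[ℝ] H) (b : OrthonormalBasis (Fin d) ℝ U) :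
    f.normDet ≤ ∏ i, ‖f (b i)‖ := by
  by_cases h0 : f.normDet = 0
  · rw [h0]; exact Finset.prod_nonneg fun i _ => norm_nonneg _
  have hr : finrank ℝ f.range = finrank ℝ U := by
    by_contra h
    exact h0 (LinearMap.normDet_eq_zero_iff_rank_range_ne.mpr h)
  have hd : finrank ℝ U = d := by
    simpa using finrank_eq_card_basis b.toBasis
  have hcard : finrank ℝ f.range = Fintype.card (Fin d) := by simp [hr, hd]
  set v : Fin d → f.range := fun i => f.rangeRestrict (b i) with hv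
  set c := InnerProductSpace.gramSchmidtOrthonormalBasis hcard v with hc
  rw [LinearMap.normDet_eq_norm_det_toMatrix_rangeRestrict f b c]
  have e1 : (f.rangeRestrict.toMatrix b.toBasis c.toBasis) = c.toBasis.toMatrix v := by
    ext i j
    simp [LinearMap.toMatrix_apply, Basis.toMatrix_apply, hv]
  have e2 : (c.toBasis.toMatrix v).det = ∏ i, ⟪c i, v i⟫ := by
    rw [← Basis.det_apply]
    exact InnerProductSpace.gramSchmidtOrthonormalBasis_det hcard v
  rw [e1, e2, Real.norm_eq_abs, Finset.abs_prod]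
  refine Finset.prod_le_prod (fun i _ => abs_nonneg _) fun i _ => ?_
  have := abs_real_inner_le_norm (c i) (v i)
  rw [c.orthonormal.1 i, one_mul] at this
  exact this

/-- Volumes of large dimension are contracted faster than `q ^ d`. -/
theorem vol_contract {κ : Type*} [Fintype κ] (S : H →ₗ[ℝ] H) (r : κ → H) (q0 q : ℝ)
    (hq0 : 0 ≤ q0) (hq : q0 < q)
    (hS : ∀ x, ‖S x‖ ^ 2 ≤ q0 ^ 2 * ‖x‖ ^ 2 + ∑ k, ⟪r k, x⟫ ^ 2) :
    ∃ d0 : ℕ, ∀ (V : Submodule ℝ H) [FiniteDimensional ℝ V], d0 ≤ finrank ℝ V →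
      (S.domRestrict V).normDet ≤ (1 / 2) * q ^ finrank ℝ V := by
  have hqpos : 0 < q := lt_of_le_of_lt hq0 hq
  have hgap : 0 < q ^ 2 - q0 ^ 2 := by nlinarith
  set h := ∑ k, ‖r k‖ ^ 2 with hh
  obtain ⟨d0, hd0⟩ := exists_nat_ge ((h + 3 * q ^ 2) / (q ^ 2 - q0 ^ 2))
  refine ⟨d0, fun V _ hV => ?_⟩
  set d := finrank ℝ V with hd
  set b := stdOrthonormalBasis ℝ V with hb
  have h1 := normDet_le_prod (S.domRestrict V) b
  have hon : Orthonormal ℝ (fun i => (b i : H)) :=
    V.subtypeₗᵢ.orthonormal_comp_iff.mpr b.orthonormal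
  have hsum : ∑ i, ‖S (b i : H)‖ ^ 2 ≤ d * q0 ^ 2 + h := by
    have e : ∀ i, ‖S (b i : H)‖ ^ 2 ≤ q0 ^ 2 + ∑ k, ⟪r k, (b i : H)⟫ ^ 2 := by
      intro i
      have := hS (b i : H)
      rwa [hon.1 i, one_pow, mul_one] at this
    calc ∑ i, ‖S (b i : H)‖ ^ 2 ≤ ∑ i, (q0 ^ 2 + ∑ k, ⟪r k, (b i : H)⟫ ^ 2) :=
          Finset.sum_le_sum fun i _ => e i
      _ = d * q0 ^ 2 + ∑ k, ∑ i, ⟪r k, (b i : H)⟫ ^ 2 := by
          rw [Finset.sum_add_distrib, Finset.sum_comm]
          simp [hd]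
      _ ≤ d * q0 ^ 2 + h := by
          refine add_le_add le_rfl (Finset.sum_le_sum fun k _ => ?_)
          have := hon.sum_inner_products_le (s := Finset.univ) (r k)
          simpa [real_inner_comm, sq_abs] using this
  have hexp : ∀ i, ‖S (b i : H)‖ ≤ q * Real.exp ((‖S (b i : H)‖ ^ 2 / q ^ 2 - 1) / 2) := by
    intro i
    set t := ‖S (b i : H)‖
    have h2 : (t ^ 2 / q ^ 2 - 1) / 2 + 1 ≤ Real.exp ((t ^ 2 / q ^ 2 - 1) / 2) :=
      Real.add_one_le_exp _
    have h3 : t ≤ q * ((t ^ 2 / q ^ 2 - 1) / 2 + 1) := by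
      have : q * ((t ^ 2 / q ^ 2 - 1) / 2 + 1) - t = (t - q) ^ 2 / (2 * q) := by
        field_simp; ring
      have h4 : 0 ≤ (t - q) ^ 2 / (2 * q) := by positivity
      linarith
    exact h3.trans (mul_le_mul_of_nonneg_left h2 hqpos.le)
  have h5 : ∏ i, ‖S (b i : H)‖ ≤
      q ^ d * Real.exp (((∑ i, ‖S (b i : H)‖ ^ 2) / q ^ 2 - d) / 2) := by
    calc ∏ i, ‖S (b i : H)‖ ≤ ∏ i, (q * Real.exp ((‖S (b i : H)‖ ^ 2 / q ^ 2 - 1) / 2)) :=
          Finset.prod_le_prod (fun i _ => norm_nonneg _) fun i _ => hexp i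
      _ = q ^ d * Real.exp (((∑ i, ‖S (b i : H)‖ ^ 2) / q ^ 2 - d) / 2) := by
          rw [Finset.prod_mul_distrib, ← Real.exp_sum]
          congr 1
          · simp [hd]
          · congr 1
            rw [← Finset.sum_div, Finset.sum_sub_distrib, ← Finset.sum_div]
            simp [hd]
  have h6 : ((∑ i, ‖S (b i : H)‖ ^ 2) / q ^ 2 - d) / 2 ≤ -1 := by
    have hdd : (d0 : ℝ) ≤ d := by exact_mod_cast hV
    have h7 : h + 3 * q ^ 2 ≤ d * (q ^ 2 - q0 ^ 2) := by
      have := (div_le_iff₀ hgap).mp hd0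
      nlinarith
    have h8 : (∑ i, ‖S (b i : H)‖ ^ 2) / q ^ 2 ≤ d - 2 := by
      rw [div_le_iff₀ (by positivity)]
      nlinarith [sq_nonneg q]
    linarith
  have h9 : Real.exp (((∑ i, ‖S (b i : H)‖ ^ 2) / q ^ 2 - d) / 2) ≤ 1 / 2 := by
    refine (Real.exp_le_exp.mpr h6).trans ?_
    rw [Real.exp_neg, inv_eq_one_div]
    apply one_div_le_one_div_of_le (by norm_num)
    have := Real.add_one_le_exp (1 : ℝ)
    linarith
  calc (S.domRestrict V).normDet ≤ ∏ i, ‖S (b i : H)‖ := h1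
    _ ≤ _ := h5
    _ ≤ q ^ d * (1 / 2) := by gcongr
    _ = _ := by ring

/-- Points with a backward orbit of size `O(b ^ j)`. -/
def Back (S : H →ₗ[ℝ] H) (b : ℝ) : Submodule ℝ H where
  carrier := {z | ∃ u : ℕ → H, u 0 = z ∧ (∀ j, S (u (j + 1)) = u j) ∧
    ∃ C : ℝ, ∀ j, ‖u j‖ ≤ C * b ^ j}
  add_mem' := by
    rintro _ _ ⟨u, rfl, hu, C, hC⟩ ⟨v, rfl, hv, D, hD⟩
    refine ⟨u + v, rfl, fun j => by simp [hu, hv], C + D, fun j => ?_⟩
    have := norm_add_le (u j) (v j)
    have := hC j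
    have := hD j
    simp only [Pi.add_apply]
    linarith
  zero_mem' := ⟨0, rfl, by simp, 0, by simp⟩
  smul_mem' := by
    rintro c _ ⟨u, rfl, hu, C, hC⟩
    refine ⟨c • u, rfl, fun j => by simp [hu], |c| * C, fun j => ?_⟩
    simp only [Pi.smul_apply, norm_smul, Real.norm_eq_abs, mul_assoc]
    exact mul_le_mul_of_nonneg_left (hC j) (abs_nonneg c)

theorem Back_mono (S : H →ₗ[ℝ] H) {a b : ℝ} (ha : 0 ≤ a) (hab : a ≤ b) : Back S a ≤ Back S b := by
  rintro _ ⟨u, rfl, hu, C, hC⟩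
  have hC0 : 0 ≤ C := by simpa using (norm_nonneg _).trans (hC 0)
  exact ⟨u, rfl, hu, C, fun j => (hC j).trans (by gcongr)⟩

theorem Back_finite {κ : Type*} [Fintype κ] (S : H →ₗ[ℝ] H) (r : κ → H) (q0 q : ℝ)
    (hq0 : 0 ≤ q0) (hq : q0 < q)
    (hS : ∀ x, ‖S x‖ ^ 2 ≤ q0 ^ 2 * ‖x‖ ^ 2 + ∑ k, ⟪r k, x⟫ ^ 2) :
    FiniteDimensional ℝ (Back S q⁻¹) := by
  have hqpos : 0 < q := lt_of_le_of_lt hq0 hq
  obtain ⟨d, hd⟩ := vol_contract S r q0 q hq0 hq hS
  by_contra hinf
  have hrank : (d : Cardinal) ≤ Module.rank ℝ (Back S q⁻¹) := by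
    by_contra hlt
    push Not at hlt
    exact hinf (Module.rank_lt_aleph0_iff.mp (hlt.trans (Cardinal.natCast_lt_aleph0)))
  obtain ⟨z, hz⟩ := exists_linearIndependent_of_le_rank hrank
  choose u hu0 hu C hC using fun i => (z i).2
  set e := EuclideanSpace.basisFun (Fin d) ℝ with he
  let f : ℕ → (EuclideanSpace ℝ (Fin d) →ₗ[ℝ] H) := fun j => e.toBasis.constr ℝ fun i => u i j
  have hf : ∀ j i, f j (e i) = u i j := fun j i => by
    have := e.toBasis.constr_basis ℝ (fun i => u i j) i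
    rwa [OrthonormalBasis.coe_toBasis] at this
  have hcomp : ∀ j, f j = S ∘ₗ f (j + 1) := fun j =>
    e.toBasis.ext fun i => by simp only [OrthonormalBasis.coe_toBasis, LinearMap.comp_apply, hf, hu]
  have hstep : ∀ j, (f j).normDet ≤ (1 / 2) * q ^ d * (f (j + 1)).normDet := by
    intro j
    by_cases h0 : (f (j + 1)).normDet = 0
    · rw [hcomp j, LinearMap.normDet_comp, h0]; simp
    have hr : finrank ℝ (f (j + 1)).range = d := by
      by_contra h
      apply h0
      apply LinearMap.normDet_eq_zero_iff_rank_range_ne.mpr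
      simpa using h
    have := hd (f (j + 1)).range hr.ge
    rw [hr] at this
    rw [hcomp j, LinearMap.normDet_comp]
    exact mul_le_mul_of_nonneg_right this (LinearMap.normDet_nonneg _)
  have hiter : ∀ j, (f 0).normDet ≤ ((1 / 2) * q ^ d) ^ j * (f j).normDet := by
    intro j
    induction j with
    | zero => simp
    | succ j ih =>
      refine ih.trans ?_
      rw [pow_succ, mul_assoc]
      exact mul_le_mul_of_nonneg_left (hstep j) (by positivity)
  have hup : ∀ j, (f j).normDet ≤ (∏ i, C i) * (q⁻¹ ^ j) ^ d := by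
    intro j
    refine (normDet_le_prod (f j) e).trans ?_
    calc ∏ i, ‖f j (e i)‖ ≤ ∏ i, (C i * q⁻¹ ^ j) :=
          Finset.prod_le_prod (fun i _ => norm_nonneg _) fun i _ => by rw [hf]; exact hC i j
      _ = _ := by rw [Finset.prod_mul_distrib]; simp
  have hle : ∀ j, (f 0).normDet ≤ (∏ i, C i) * (1 / 2) ^ j := by
    intro j
    refine (hiter j).trans ((mul_le_mul_of_nonneg_left (hup j) (by positivity)).trans (le_of_eq ?_))
    have : (q ^ d) ^ j * (q⁻¹ ^ j) ^ d = 1 := by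
      rw [← pow_mul, ← pow_mul, mul_comm j d, ← mul_pow, mul_inv_cancel₀ hqpos.ne', one_pow]
    rw [mul_pow]
    linear_combination (∏ i, C i) * (1 / 2) ^ j * this
  have hlim : Tendsto (fun j : ℕ => (∏ i, C i) * (1 / 2 : ℝ) ^ j) atTop (𝓝 0) := by
    simpa using (tendsto_pow_atTop_nhds_zero_of_lt_one (r := (1 / 2 : ℝ)) (by norm_num)
      (by norm_num)).const_mul (∏ i, C i)
  have h0 : (f 0).normDet = 0 :=
    le_antisymm (ge_of_tendsto' hlim hle) (LinearMap.normDet_nonneg _)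
  apply LinearMap.normDet_eq_zero_iff_ker_ne_bot.mp h0
  have hz' : LinearIndependent ℝ fun i => u i 0 := by
    have := hz.map' (Back S q⁻¹).subtype (Submodule.ker_subtype _)
    have e1 : (fun i => u i 0) = ⇑(Back S q⁻¹).subtype ∘ z := by
      ext i
      simp [hu0]
    rw [e1]
    exact this
  rw [LinearMap.ker_eq_bot']
  intro c hc
  have hsum : ∑ i, e.repr c i • u i 0 = 0 := by
    rw [← hc]
    conv_rhs => rw [← e.sum_repr c]
    simp only [map_sum, map_smul, hf]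
  have := Fintype.linearIndependent_iff.mp hz' _ hsum
  have h3 : e.repr c = 0 := by ext i; exact this i
  simpa using h3

end Pool.Agent.Boltz.Dich
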